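import Pool.Agent.IR.Ord

/-!
# Ideal resilience of dense graphs (MP_ed14c7_lc)

Let `G` be a graph with `n` nodes, all of whose degrees are at least `k`, and let `t` be a node with
`3 n ≤ 2 k + 2 deg t + 7`. Then there is a `(k-1)`-resilient forwarding pattern for the target `t`.
In particular every `k`-link-connected graph with at most `(4 k + 7) / 3` nodes has ideally
resilient forwarding patterns for all targets.
-/

open Finset Pool.Agent.IR

namespace Pool.Agent.Results.MP_ed14c7_lc.DenseGraphs

/-- If all degrees of `G` are at least `k` and `3 |V| ≤ 2 k + 2 deg t + 7`, then there is a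
forwarding pattern which, for all sets of less than `k` failed links, delivers the packets from all
sources to `t`. -/
theorem result {V : Type*} [Fintype V] (G : SimpleGraph V) (t : V) (k : ℕ)
    (hk : ∀ v, k ≤ Nat.card {u : V // G.Adj v u})
    (hn : 3 * Fintype.card V ≤ 2 * k + 2 * Nat.card {u : V // G.Adj t u} + 7) :
    ∃ π : Pattern G, ∀ F : Finset (Sym2 V), (∀ e ∈ F, e ∈ G.edgeSet) → F.card < k →
      ∀ s, Delivers π F s t := by
  classical
  have hdg : ∀ v, Nat.card {u : V // G.Adj v u} = dg G v := by
    intro v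
    rw [Nat.card_eq_fintype_card, Fintype.card_subtype]
    unfold dg
    congr 1
  have hk' : ∀ v, k ≤ dg G v := fun v => by rw [← hdg v]; exact hk v
  rw [hdg t] at hn
  -- an enumeration of the nodes
  let E : V → ℕ := fun v => ((Fintype.equivFin V) v).val
  have hE : Function.Injective E := fun v w h =>
    (Fintype.equivFin V).injective (Fin.ext h)
  have hEn : ∀ v, E v < Fintype.card V := fun v => ((Fintype.equivFin V) v).isLt
  obtain ⟨σ, h1, h2⟩ := ind hE hk' hn (Fintype.card V)
  have hσ : ∀ x, Far G t x → Sys G t E k x (Forb G t E σ x) (σ x) := fun x hx => h1 x hx (hEn x)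
  have hσ0 : ∀ x, ¬ Far G t x → ∀ u, σ x u = none := fun x hx => h2 x fun h => hx h.1
  let _ : LinearOrder V := LinearOrder.lift' (rk G t E σ) (rk_inj hE hEn σ)
  have hT : Tests G σ := tests_of hEn hσ hσ0 hE
  refine ⟨pat G σ, fun F _ hF s => ?_⟩
  by_contra hn'
  obtain ⟨x, hxt, hx⟩ := core hT F s hn'
  have ht : ∀ v, t ≤ v := by
    intro v
    show rk G t E σ t ≤ rk G t E σ v
    rw [rk_t]
    exact Nat.zero_le _
  have hfn : ∀ f a, Far G t f → G.Adj t a → f < a := fun f a hf ha => rk_far_lt_near hEn hf ha
  have hff : ∀ f f', Far G t f → Far G t f' → f < f' → E f < E f' := by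
    intro f f' hf hf' h
    have h' : rk G t E σ f < rk G t E σ f' := h
    rw [rk_far hf, rk_far hf'] at h'
    omega
  have := count ht hfn hff hk' hσ F hxt hx
  omega

end Pool.Agent.Results.MP_ed14c7_lc.DenseGraphs
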