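import Pool.Agent.IR.Core

/-!
# Ideal resilience of graphs with a suitable ordering of the nodes (MP_ed14c7_lc)

If the nodes can be ordered `t = v_0, v_1, ...` in such a way that every `v_i`, `i ≥ 1`, has at least
`k` neighbours in the union of the closed neighbourhoods of `v_0, ..., v_(i-1)`, then there is a
`(k-1)`-resilient forwarding pattern for the target `t`.
-/

open Finset Pool.Agent.IR

namespace Pool.Agent.Results.MP_ed14c7_lc.OrderedGraphs

/-- Let the nodes be linearly ordered, `t` being the smallest, and let every node `v ≠ t` have at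
least `k` neighbours `u` which are smaller than `v` or have a neighbour smaller than `v`. Then there
is a forwarding pattern which, for all sets of less than `k` failed links, delivers the packets from
all sources to `t`. -/
theorem result {V : Type*} [Fintype V] [LinearOrder V] (G : SimpleGraph V) (t : V)
    (ht : ∀ v, t ≤ v) (k : ℕ)
    (hk : ∀ v, v ≠ t → k ≤ Nat.card {u : V // G.Adj v u ∧ ∃ w < v, u = w ∨ G.Adj w u}) :
    ∃ π : Pattern G, ∀ F : Finset (Sym2 V), (∀ e ∈ F, e ∈ G.edgeSet) → F.card < k →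
      ∀ s, Delivers π F s t := by
  classical
  have _ := ht
  have hσ : Tests G (fun _ _ => none) :=
    ⟨by simp, by simp, by simp, by simp⟩
  refine ⟨pat G (fun _ _ => none), fun F _ hF s => ?_⟩
  by_contra hn
  obtain ⟨x, hxt, hx⟩ := core hσ F s hn
  have hk' := hk x hxt
  rw [Nat.card_eq_fintype_card, Fintype.card_subtype] at hk'
  -- homes
  have hhome : ∀ u : V, ∃ m, (∃ w, G.Adj u w) → IsHome G u m := by
    intro u
    by_cases h : ∃ w, G.Adj u w
    · obtain ⟨w, hw⟩ := h
      obtain ⟨m, hm⟩ := exists_home hw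
      exact ⟨m, fun _ => hm⟩
    · exact ⟨u, fun h' => absurd h' h⟩
  choose m hm using hhome
  have key : ∀ u, G.Adj x u → (∃ w < x, u = w ∨ G.Adj w u) → s(x, u) ∉ F →
      x < u ∧ m u < x ∧ s(u, m u) ∈ F := by
    intro u hu ⟨w, hwx, hw⟩ hF'
    obtain ⟨h1, h2, -⟩ := hx u hu hF'
    have hwu : G.Adj u w := by
      rcases hw with rfl | hw
      · exact absurd h1 (not_lt.2 hwx.le)
      · exact hw.symm
    have h3 := hm u ⟨w, hwu⟩
    have h4 : m u < x := lt_of_le_of_lt (h3.2 _ hwu) hwx
    exact ⟨h1, h4, h2 _ h3 h4.ne⟩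
  have hle : (Finset.univ.filter fun u => G.Adj x u ∧ ∃ w < x, u = w ∨ G.Adj w u).card
      ≤ F.card := by
    refine Finset.card_le_card_of_injOn (fun u => if s(x, u) ∈ F then s(x, u) else s(u, m u))
      ?_ ?_
    · intro u hu
      have hu' := (Finset.mem_filter.1 (Finset.mem_coe.1 hu)).2
      show (if s(x, u) ∈ F then s(x, u) else s(u, m u)) ∈ (F : Set (Sym2 V))
      split_ifs with h
      · exact h
      · exact (key u hu'.1 hu'.2 h).2.2
    · intro u hu u' hu' h
      have hu1 := (Finset.mem_filter.1 (Finset.mem_coe.1 hu)).2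
      have hu2 := (Finset.mem_filter.1 (Finset.mem_coe.1 hu')).2
      simp only at h
      split_ifs at h with h1 h2 h2
      · exact Sym2.congr_right.1 h
      · exfalso
        obtain ⟨k1, k2, -⟩ := key u' hu2.1 hu2.2 h2
        rcases Sym2.eq_iff.1 h with ⟨e1, -⟩ | ⟨e1, -⟩
        · exact hu2.1.ne e1
        · exact k2.ne' e1
      · exfalso
        obtain ⟨k1, k2, -⟩ := key u hu1.1 hu1.2 h1
        rcases Sym2.eq_iff.1 h with ⟨e1, -⟩ | ⟨-, e1⟩
        · exact k1.ne' e1
        · exact k2.ne e1
      · obtain ⟨k1, k2, -⟩ := key u hu1.1 hu1.2 h1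
        obtain ⟨k3, k4, -⟩ := key u' hu2.1 hu2.2 h2
        rcases Sym2.eq_iff.1 h with ⟨e1, -⟩ | ⟨e1, -⟩
        · exact e1
        · exact absurd (e1 ▸ k1 : x < m u') (not_lt.2 k4.le)
  omega

end Pool.Agent.Results.MP_ed14c7_lc.OrderedGraphs
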