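import Pool.Agent.IR.Res

/-!
# Ideal resilience of random graphs (MP_ed14c7_lc)

If `n p² ≥ 2000 (log n)²` then, with probability at least `1 - 2 / n`, the binomial random graph
`G(n,p)` has, for all targets `t` and all `k` up to its minimum degree, a `(k-1)`-resilient
forwarding pattern.
-/

open Finset Pool.Agent.IR

namespace Pool.Agent.Results.MP_ed14c7_lc.RandomGraphs

/-- If `n p² ≥ 2000 (log n)²` then the random graph `G(n,p)` is `Resilient` (for all targets and all
`k` up to the minimum degree it has a `(k-1)`-resilient forwarding pattern) with probability at least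
`1 - 2 / n`. -/
theorem result (n : ℕ) (p : unitInterval) (hn : 1 ≤ n)
    (h : 2000 * Real.log n ^ 2 ≤ n * (p : ℝ) ^ 2) :
    1 - 2 / (n : ℝ) ≤ (SimpleGraph.binomialRandom (Fin n) p).real {G | Resilient G} := by
  rw [binomial_eq]
  have h1 := prb_resilient (V := Fin n) (p := (p : ℝ)) p.2.1 p.2.2 (by rw [Fintype.card_fin]; exact hn)
    (by rw [Fintype.card_fin]; exact h)
  rw [Fintype.card_fin] at h1
  exact h1

end Pool.Agent.Results.MP_ed14c7_lc.RandomGraphs
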