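import Pool.Agent.IR.Short

/-!
# Ideal resilience of graphs with many short paths to the target (MP_ed14c7_lc)

Let `t` be a node of a finite graph `G` such that the neighbours of `t` have degrees at least `k` and
every node `x ≠ t` which is not adjacent to `t` is joined to `t` by `k` internally disjoint paths of
length at most three. Then there is a `(k-1)`-resilient forwarding pattern for the target `t`.
-/

open Finset Pool.Agent.IR

namespace Pool.Agent.Results.MP_ed14c7_lc.ShortPaths

/-- If the neighbours of `t` have degrees at least `k` and all nodes `x ≠ t` which are not adjacent
to `t` are joined to `t` by `k` internally disjoint paths of length at most three, then there is a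
forwarding pattern which, for all sets of less than `k` failed links, delivers the packets from all
sources to `t`. -/
theorem result {V : Type*} [Fintype V] (G : SimpleGraph V) (t : V) (k : ℕ)
    (hnear : ∀ x, G.Adj t x → k ≤ Nat.card {u : V // G.Adj x u})
    (hfar : ∀ x, x ≠ t → ¬ G.Adj t x → ∃ P : Finset (V × V), k ≤ P.card ∧ PathSystem G x t P) :
    ∃ π : Pattern G, ∀ F : Finset (Sym2 V), (∀ e ∈ F, e ∈ G.edgeSet) → F.card < k →
      ∀ s, Delivers π F s t :=
  short_paths G t k hnear hfar

end Pool.Agent.Results.MP_ed14c7_lc.ShortPaths
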